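import Mathlib

open scoped Pointwise

namespace Pool.Agent.Results.MP_267066_co.TwoSetBasisSums

/-- For every `n ≥ 1` and all finite `B₀, B₁ ⊂ ℚⁿ` whose sumset contains all the vectors
`eᵢ + eⱼ` (`i ≤ j`), one has `|B₀| + |B₁| ≥ 2n`. -/
theorem result (n : ℕ) (hn : 1 ≤ n) (B₀ B₁ : Finset (Fin n → ℚ))
    (hT : {x : Fin n → ℚ | ∃ i j : Fin n, i ≤ j ∧ x = Pi.single i 1 + Pi.single j 1} ⊆
      (B₀ : Set (Fin n → ℚ)) + (B₁ : Set (Fin n → ℚ))) :
    2 * n ≤ B₀.card + B₁.card := by
  classical
  -- choose representations
  have hrep : ∀ i j : Fin n, ∃ a : B₀, ∃ b : B₁,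
      (a : Fin n → ℚ) + (b : Fin n → ℚ) = Pi.single i 1 + Pi.single j 1 := by
    intro i j
    rcases le_total i j with h | h
    · obtain ⟨a, ha, b, hb, hab⟩ := Set.mem_add.1 (hT ⟨i, j, h, rfl⟩)
      exact ⟨⟨a, ha⟩, ⟨b, hb⟩, hab⟩
    · obtain ⟨a, ha, b, hb, hab⟩ := Set.mem_add.1 (hT ⟨j, i, h, rfl⟩)
      exact ⟨⟨a, ha⟩, ⟨b, hb⟩, hab.trans (add_comm _ _)⟩
  choose a b hab using hrep
  -- vertex space
  let L : B₀ → (B₀ ⊕ B₁ → ℚ) := fun p => Pi.single (Sum.inl p) 1
  let R : B₁ → (B₀ ⊕ B₁ → ℚ) := fun q => Pi.single (Sum.inr q) 1
  let x : Fin n → Fin n → (B₀ ⊕ B₁ → ℚ) := fun i j => L (a i j) + R (b i j)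
  let U : ℕ → Submodule ℚ (B₀ ⊕ B₁ → ℚ) := fun k =>
    Submodule.span ℚ {f | ∃ i j : Fin n, i.val < k ∧ j.val < k ∧ f = x i j}
  have hxU : ∀ (k : ℕ) (i j : Fin n), i.val < k → j.val < k → x i j ∈ U k := fun k i j hi hj =>
    Submodule.subset_span ⟨i, j, hi, hj, rfl⟩
  have hmono : ∀ k, U k ≤ U (k + 1) := by
    intro k
    refine Submodule.span_mono ?_
    rintro f ⟨i, j, hi, hj, rfl⟩
    exact ⟨i, j, by omega, by omega, rfl⟩
  -- the linear map sending a vertex to the vector it carries
  let φ : (B₀ ⊕ B₁ → ℚ) →ₗ[ℚ] (Fin n → ℚ) :=
    { toFun := fun f => ∑ p : B₀, f (Sum.inl p) • (p : Fin n → ℚ) +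
        ∑ q : B₁, f (Sum.inr q) • (q : Fin n → ℚ)
      map_add' := by
        intro f g
        simp only [Pi.add_apply, add_smul, Finset.sum_add_distrib]
        abel
      map_smul' := by
        intro c f
        simp only [Pi.smul_apply, smul_eq_mul, mul_smul, RingHom.id_apply, smul_add,
          Finset.smul_sum] }
  have hφL : ∀ p, φ (L p) = (p : Fin n → ℚ) := by
    intro p
    simp only [φ, L, LinearMap.coe_mk, AddHom.coe_mk, Pi.single_apply, Sum.inl.injEq]
    simp [Finset.sum_ite_eq']
  have hφR : ∀ q, φ (R q) = (q : Fin n → ℚ) := by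
    intro q
    simp only [φ, R, LinearMap.coe_mk, AddHom.coe_mk, Pi.single_apply, Sum.inr.injEq]
    simp [Finset.sum_ite_eq']
  have hφx : ∀ i j, φ (x i j) = Pi.single i 1 + Pi.single j 1 := by
    intro i j
    simp only [x, map_add, hφL, hφR, hab]
  have hφU : ∀ (k : Fin n) (f), f ∈ U k.val → φ f k = 0 := by
    intro k f hf
    induction hf using Submodule.span_induction with
    | mem f hf =>
      obtain ⟨i, j, hi, hj, rfl⟩ := hf
      rw [hφx]
      have h1 : k ≠ i := by intro h; subst h; omega
      have h2 : k ≠ j := by intro h; subst h; omega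
      simp [Pi.single_apply, h1, h2]
    | zero => simp
    | add f g _ _ hf hg => simp [hf, hg]
    | smul c f _ hf => simp [hf]
  -- the induction
  have key : ∀ k : ℕ, 1 ≤ k → k ≤ n → 2 * k ≤ Module.finrank ℚ (U k) + 1 := by
    intro k hk
    induction k, hk using Nat.le_induction with
    | base =>
      intro h1
      have hx : x ⟨0, hn⟩ ⟨0, hn⟩ ∈ U 1 := hxU 1 _ _ (by simp) (by simp)
      have hne : x ⟨0, hn⟩ ⟨0, hn⟩ ≠ 0 := by
        intro h0
        have := hφx ⟨0, hn⟩ ⟨0, hn⟩
        rw [h0, map_zero] at this
        have h2 := congrFun this ⟨0, hn⟩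
        simp at h2
        norm_num at h2
      have : 0 < Module.finrank ℚ (U 1) := by
        have hnt : Nontrivial (U 1) := ⟨⟨⟨_, hx⟩, 0, by
          intro h; exact hne (congrArg Subtype.val h)⟩⟩
        exact Module.finrank_pos
      omega
    | succ k hk ih =>
      intro hkn
      have ih' := ih (by omega)
      let K : Fin n := ⟨k, by omega⟩
      let O : Fin n := ⟨0, hn⟩
      have hOK : K ≠ O := by
        intro h
        have := congrArg Fin.val h
        simp only [K, O] at this
        omega
      have hKK : x K K ∉ U k := by
        intro h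
        have h1 := hφU K _ h
        rw [hφx] at h1
        simp at h1
      have h1 : U k < U k ⊔ Submodule.span ℚ {x K K} := by
        refine lt_of_le_of_ne le_sup_left ?_
        intro h
        apply hKK
        rw [h]
        exact Submodule.mem_sup_right (Submodule.mem_span_singleton_self _)
      have hOKx : x O K ∉ U k ⊔ Submodule.span ℚ {x K K} := by
        intro h
        obtain ⟨w, hw, z, hz, hwz⟩ := Submodule.mem_sup.1 h
        obtain ⟨c, rfl⟩ := Submodule.mem_span_singleton.1 hz
        have hc : c = 1 / 2 := by
          have h2 := congrFun (congrArg φ hwz) K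
          rw [map_add, map_smul, hφx, hφx, Pi.add_apply, hφU K w hw] at h2
          simp [Pi.single_apply, hOK] at h2
          linarith
        -- the component of the vertex `a K K`
        let u : B₀ := a K K
        let C : B₀ ⊕ B₁ → Prop := Sum.elim (fun p => L p - L u ∈ U k) (fun q => L u + R q ∈ U k)
        let ℓ : (B₀ ⊕ B₁ → ℚ) →ₗ[ℚ] ℚ :=
          { toFun := fun f => ∑ p : B₀, (if C (Sum.inl p) then f (Sum.inl p) else 0) -
              ∑ q : B₁, (if C (Sum.inr q) then f (Sum.inr q) else 0)
            map_add' := by
              intro f g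
              have e1 : ∀ p : B₀, (if C (Sum.inl p) then (f + g) (Sum.inl p) else 0) =
                  (if C (Sum.inl p) then f (Sum.inl p) else 0) +
                  (if C (Sum.inl p) then g (Sum.inl p) else 0) := by
                intro p; split_ifs <;> simp
              have e2 : ∀ p : B₁, (if C (Sum.inr p) then (f + g) (Sum.inr p) else 0) =
                  (if C (Sum.inr p) then f (Sum.inr p) else 0) +
                  (if C (Sum.inr p) then g (Sum.inr p) else 0) := by
                intro p; split_ifs <;> simp
              simp only [e1, e2, Finset.sum_add_distrib]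
              ring
            map_smul' := by
              intro r f
              have e1 : ∀ p : B₀, (if C (Sum.inl p) then (r • f) (Sum.inl p) else 0) =
                  r * (if C (Sum.inl p) then f (Sum.inl p) else 0) := by
                intro p; split_ifs <;> simp
              have e2 : ∀ p : B₁, (if C (Sum.inr p) then (r • f) (Sum.inr p) else 0) =
                  r * (if C (Sum.inr p) then f (Sum.inr p) else 0) := by
                intro p; split_ifs <;> simp
              simp only [e1, e2, ← Finset.mul_sum, RingHom.id_apply, smul_eq_mul]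
              ring }
        have hℓL : ∀ p, ℓ (L p) = if C (Sum.inl p) then 1 else 0 := by
          intro p
          have e1 : ∀ q : B₀, (if C (Sum.inl q) then L p (Sum.inl q) else 0) =
              if q = p then (if C (Sum.inl p) then 1 else 0) else 0 := by
            intro q
            by_cases h : q = p
            · subst h; simp [L]
            · simp [L, Pi.single_apply, h]
          have e2 : ∀ q : B₁, (if C (Sum.inr q) then L p (Sum.inr q) else 0) = 0 := by
            intro q; simp [L, Pi.single_apply]
          change ∑ q : B₀, (if C (Sum.inl q) then L p (Sum.inl q) else 0) -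
              ∑ q : B₁, (if C (Sum.inr q) then L p (Sum.inr q) else 0) = _
          simp only [e1, e2, Finset.sum_ite_eq', Finset.mem_univ, if_true, Finset.sum_const_zero,
            sub_zero]
        have hℓR : ∀ q, ℓ (R q) = - if C (Sum.inr q) then 1 else 0 := by
          intro p
          have e1 : ∀ q : B₁, (if C (Sum.inr q) then R p (Sum.inr q) else 0) =
              if q = p then (if C (Sum.inr p) then 1 else 0) else 0 := by
            intro q
            by_cases h : q = p
            · subst h; simp [R]
            · simp [R, Pi.single_apply, h]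
          have e2 : ∀ q : B₀, (if C (Sum.inl q) then R p (Sum.inl q) else 0) = 0 := by
            intro q; simp [R, Pi.single_apply]
          change ∑ q : B₀, (if C (Sum.inl q) then R p (Sum.inl q) else 0) -
              ∑ q : B₁, (if C (Sum.inr q) then R p (Sum.inr q) else 0) = _
          simp only [e1, e2, Finset.sum_ite_eq', Finset.mem_univ, if_true, Finset.sum_const_zero,
            zero_sub]
        have hℓU : ∀ f ∈ U k, ℓ f = 0 := by
          intro f hf
          induction hf using Submodule.span_induction with
          | mem f hf =>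
            obtain ⟨i, j, hi, hj, rfl⟩ := hf
            have hmem : L (a i j) + R (b i j) ∈ U k := hxU k i j hi hj
            have hiff : C (Sum.inl (a i j)) ↔ C (Sum.inr (b i j)) := by
              constructor
              · intro h
                have h' : L (a i j) - L u ∈ U k := h
                have := (U k).sub_mem hmem h'
                have e : L (a i j) + R (b i j) - (L (a i j) - L u) = L u + R (b i j) := by abel
                rw [e] at this
                exact this
              · intro h
                have h' : L u + R (b i j) ∈ U k := h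
                have := (U k).sub_mem hmem h'
                have e : L (a i j) + R (b i j) - (L u + R (b i j)) = L (a i j) - L u := by abel
                rw [e] at this
                exact this
            change ℓ (L (a i j) + R (b i j)) = 0
            rw [map_add, hℓL, hℓR]
            by_cases h : C (Sum.inl (a i j))
            · rw [if_pos h, if_pos (hiff.1 h)]; ring
            · rw [if_neg h, if_neg (fun h' => h (hiff.2 h'))]; ring
          | zero => simp
          | add f g _ _ hf hg => rw [map_add, hf, hg, add_zero]
          | smul c f _ hf => rw [map_smul, hf, smul_zero]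
        have hCu : C (Sum.inl u) := by
          change L u - L u ∈ U k
          rw [sub_self]; exact (U k).zero_mem
        have hCv : ¬ C (Sum.inr (b K K)) := by
          intro h
          exact hKK h
        have hℓKK : ℓ (x K K) = 1 := by
          change ℓ (L (a K K) + R (b K K)) = 1
          rw [map_add, hℓL, hℓR, if_pos hCu, if_neg hCv]; ring
        have hfin : ℓ (x O K) = 1 / 2 := by
          rw [← hwz, map_add, map_smul, hℓU w hw, hℓKK, hc]; simp
        have hfin2 : ℓ (x O K) = (if C (Sum.inl (a O K)) then 1 else 0) +
            (- if C (Sum.inr (b O K)) then 1 else 0) := by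
          change ℓ (L (a O K) + R (b O K)) = _
          rw [map_add, hℓL, hℓR]
        rw [hfin2] at hfin
        split_ifs at hfin <;> norm_num at hfin
      have h2 : U k ⊔ Submodule.span ℚ {x K K} < U (k + 1) := by
        refine lt_of_le_of_ne ?_ ?_
        · refine sup_le (hmono k) ?_
          rw [Submodule.span_le, Set.singleton_subset_iff]
          exact hxU (k + 1) K K (by simp [K]) (by simp [K])
        · intro h
          apply hOKx
          rw [h]
          exact hxU (k + 1) O K (by simp [O]) (by simp [K])
      have h3 := Submodule.finrank_lt_finrank_of_lt h1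
      have h4 := Submodule.finrank_lt_finrank_of_lt h2
      omega
  have hn' := key n hn le_rfl
  have hlt : U n < ⊤ := by
    refine lt_of_le_of_ne le_top ?_
    intro htop
    let ℓ : (B₀ ⊕ B₁ → ℚ) →ₗ[ℚ] ℚ :=
      { toFun := fun f => ∑ p : B₀, f (Sum.inl p) - ∑ q : B₁, f (Sum.inr q)
        map_add' := by
          intro f g
          simp only [Pi.add_apply, Finset.sum_add_distrib]; ring
        map_smul' := by
          intro r f
          simp only [Pi.smul_apply, smul_eq_mul, ← Finset.mul_sum, RingHom.id_apply]; ring }
    have hL : ∀ p, ℓ (L p) = 1 := by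
      intro p
      simp [ℓ, L, Pi.single_apply]
    have hR : ∀ p, ℓ (R p) = -1 := by
      intro p
      simp [ℓ, R, Pi.single_apply]
    have hU : ∀ f ∈ U n, ℓ f = 0 := by
      intro f hf
      induction hf using Submodule.span_induction with
      | mem f hf =>
        obtain ⟨i, j, hi, hj, rfl⟩ := hf
        change ℓ (L (a i j) + R (b i j)) = 0
        rw [map_add, hL, hR]; ring
      | zero => simp
      | add f g _ _ hf hg => rw [map_add, hf, hg, add_zero]
      | smul c f _ hf => rw [map_smul, hf, smul_zero]
    have h1 : ℓ (L (a ⟨0, hn⟩ ⟨0, hn⟩)) = 0 := hU _ (by rw [htop]; trivial)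
    rw [hL] at h1
    exact one_ne_zero h1
  have hfr := Submodule.finrank_lt hlt.ne
  have hdim : Module.finrank ℚ (B₀ ⊕ B₁ → ℚ) = B₀.card + B₁.card := by
    rw [Module.finrank_fintype_fun_eq_card, Fintype.card_sum, Fintype.card_coe, Fintype.card_coe]
  omega

end Pool.Agent.Results.MP_267066_co.TwoSetBasisSums
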